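import Mathlib

/-!
# A supercyclic composition operator on smooth functions that is not chaotic

`Ω = {x ∈ ℝ^d : (x₀, x₁) ≠ 0}`, `d ≥ 3`, and `ψ(x) = (2 x₀, x₁ / 2, x₂ + h(x₀, x₁), x₃, …)`, where
`h ≥ 0` is smooth, vanishes near the axes, and on the hyperbola `|x₀ x₁| = e^(-t)` is large for `t`
in some long windows and zero for `t` in other long windows.  In the former windows the third
coordinate drives every point away during its transit along the saddle, so that `ψ` is run-away; in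
the latter windows the points near `(0, 1, 0, …)` come back near `(1, 0, 0, …)` at times divisible by
any given `p`, so that every periodic function takes the same value at these two points.
-/

set_option autoImplicit false

open Set Filter Topology
open scoped ContDiff

namespace Pool.Agent.Results.MP_fcbc3e_an.SaddleSkewMap

section Defs

variable {E 𝕜 : Type*} [NormedAddCommGroup E] [NormedSpace ℝ E] [RCLike 𝕜]

/-- the weighted composition operator `f ↦ w · (f ∘ ψ)` -/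
def wco (w : E → 𝕜) (ψ : E → E) (f : E → 𝕜) : E → 𝕜 := fun x => w x * f (ψ x)

/-- `f` and `g` are `ε`-close in the seminorm given by the compact set `L` and the order `n`: the
derivatives of order `≤ n` of `f - g` have norm less than `ε` at every point of `L`. -/
def Near (L : Set E) (n : ℕ) (ε : ℝ) (f g : E → 𝕜) : Prop :=
  ∀ x ∈ L, ∀ i ≤ n, ‖iteratedFDeriv ℝ i (fun y => f y - g y) x‖ < ε

/-- some `g` has a dense projective orbit -/
def Supercyclic (Ω : Set E) (w : E → 𝕜) (ψ : E → E) : Prop :=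
  ∃ g : E → 𝕜, ContDiffOn ℝ ∞ g Ω ∧ ∀ f : E → 𝕜, ContDiffOn ℝ ∞ f Ω →
    ∀ L : Set E, IsCompact L → L ⊆ Ω → ∀ (n : ℕ) (ε : ℝ), 0 < ε →
      ∃ (m : ℕ) (c : 𝕜), Near L n ε (fun x => c * (wco w ψ)^[m] g x) f

/-- some `g` has a dense orbit -/
def Hypercyclic (Ω : Set E) (w : E → 𝕜) (ψ : E → E) : Prop :=
  ∃ g : E → 𝕜, ContDiffOn ℝ ∞ g Ω ∧ ∀ f : E → 𝕜, ContDiffOn ℝ ∞ f Ω →
    ∀ L : Set E, IsCompact L → L ⊆ Ω → ∀ (n : ℕ) (ε : ℝ), 0 < ε →
      ∃ m : ℕ, Near L n ε ((wco w ψ)^[m] g) f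

/-- the periodic points are dense -/
def DensePeriodic (Ω : Set E) (w : E → 𝕜) (ψ : E → E) : Prop :=
  ∀ f : E → 𝕜, ContDiffOn ℝ ∞ f Ω →
    ∀ L : Set E, IsCompact L → L ⊆ Ω → ∀ (n : ℕ) (ε : ℝ), 0 < ε →
      ∃ g : E → 𝕜, ContDiffOn ℝ ∞ g Ω ∧
        (∃ k : ℕ, 1 ≤ k ∧ ∀ x ∈ Ω, (wco w ψ)^[k] g x = g x) ∧ Near L n ε g f

/-- transitive -/
def Transitive (Ω : Set E) (w : E → 𝕜) (ψ : E → E) : Prop :=
  ∀ f₁ f₂ : E → 𝕜, ContDiffOn ℝ ∞ f₁ Ω → ContDiffOn ℝ ∞ f₂ Ω →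
    ∀ L : Set E, IsCompact L → L ⊆ Ω → ∀ (n : ℕ) (ε : ℝ), 0 < ε →
      ∃ g : E → 𝕜, ContDiffOn ℝ ∞ g Ω ∧
        ∃ m : ℕ, Near L n ε g f₁ ∧ Near L n ε ((wco w ψ)^[m] g) f₂

/-- chaotic: transitive with dense periodic points -/
def Chaotic (Ω : Set E) (w : E → 𝕜) (ψ : E → E) : Prop :=
  Transitive Ω w ψ ∧ DensePeriodic Ω w ψ

end Defs

section General

variable {E 𝕜 : Type*} [NormedAddCommGroup E] [NormedSpace ℝ E] [FiniteDimensional ℝ E] [RCLike 𝕜]

theorem sc_multi (i : ℕ) : SecondCountableTopology (E [×i]→L[ℝ] 𝕜) := by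
  have h0 : Module.Finite ℝ 𝕜 := FiniteDimensional.rclike_to_real
  have hE : Module.Finite ℝ E := inferInstance
  have h2 : Module.Finite ℝ (MultilinearMap ℝ (fun _ : Fin i => E) 𝕜) :=
    @Module.Finite.multilinearMap (Fin i) ℝ 𝕜 (fun _ => E) _ _ _ _ h0 inferInstance _ _
      (fun _ => hE) inferInstance
  have h3 : IsNoetherian ℝ (MultilinearMap ℝ (fun _ : Fin i => E) 𝕜) := inferInstance
  have h1 : Module.Finite ℝ (E [×i]→L[ℝ] 𝕜) :=
    Module.Finite.of_injective (ContinuousMultilinearMap.toMultilinearMapLinear (R' := ℝ) (A := ℝ) (M₁ := fun _ : Fin i => E) (M₂ := 𝕜))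
      ContinuousMultilinearMap.toMultilinearMap_injective
  have : ProperSpace (E [×i]→L[ℝ] 𝕜) := FiniteDimensional.proper ℝ _
  infer_instance

theorem dense_seq {Ω : Set E} (hΩ : IsOpen Ω) (K : ℕ → Set E) (hK : ∀ k, IsCompact (K k))
    (hKΩ : ∀ k, K k ⊆ Ω) :
    ∃ q : ℕ → E → 𝕜, (∀ j, ContDiffOn ℝ ∞ (q j) Ω) ∧ ∀ f : E → 𝕜, ContDiffOn ℝ ∞ f Ω →
      ∀ (k n : ℕ) (ε : ℝ), 0 < ε → ∃ j, Near (K k) n ε (q j) f := by
  classical
  let S := {f : E → 𝕜 // ContDiffOn ℝ ∞ f Ω}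
  have hat : ∀ (f : S) (i : ℕ) (x : E), x ∈ Ω → ContDiffAt ℝ ∞ f.1 x := fun f i x hx =>
    f.2.contDiffAt (hΩ.mem_nhds hx)
  have hco : ∀ (f : S) (i : ℕ), ContinuousOn (iteratedFDeriv ℝ i f.1) Ω := by
    intro f i x hx
    have h1 : ContDiffAt ℝ 0 (iteratedFDeriv ℝ i f.1) x := by
      refine (hat f i x hx).iteratedFDeriv_right (i := i) (m := 0) ?_
      exact_mod_cast le_top
    exact h1.continuousAt.continuousWithinAt
  have hcs : ∀ k, CompactSpace (K k) := fun k => isCompact_iff_compactSpace.1 (hK k)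
  let Φ : S → ((p : ℕ × ℕ) → C(K p.1, E [×p.2]→L[ℝ] 𝕜)) := fun f p =>
    ⟨fun x => iteratedFDeriv ℝ p.2 f.1 x, ((hco f p.2).mono (hKΩ p.1)).domRestrict⟩
  have := fun i : ℕ => sc_multi (E := E) (𝕜 := 𝕜) i
  let : TopologicalSpace S := TopologicalSpace.induced Φ inferInstance
  have : SecondCountableTopology S := TopologicalSpace.secondCountableTopology_induced _ _ Φ
  have : Nonempty S := ⟨⟨fun _ => 0, contDiffOn_const⟩⟩
  obtain ⟨q, hq⟩ := TopologicalSpace.exists_dense_seq S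
  refine ⟨fun j => (q j).1, fun j => (q j).2, fun f hf k n ε hε => ?_⟩
  have hΦ : Continuous Φ := continuous_induced_dom
  have hop : IsOpen {g : S | ∀ i ∈ Finset.range (n + 1), dist (Φ g (k, i)) (Φ ⟨f, hf⟩ (k, i)) < ε} := by
    have : {g : S | ∀ i ∈ Finset.range (n + 1), dist (Φ g (k, i)) (Φ ⟨f, hf⟩ (k, i)) < ε} =
        ⋂ i ∈ Finset.range (n + 1), {g : S | dist (Φ g (k, i)) (Φ ⟨f, hf⟩ (k, i)) < ε} := by
      ext g
      simp
    rw [this]
    refine isOpen_biInter_finset fun i _ => ?_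
    exact isOpen_lt (((continuous_apply (k, i)).comp hΦ).dist continuous_const) continuous_const
  obtain ⟨j, hj⟩ := hq.exists_mem_open hop ⟨⟨f, hf⟩, by
    intro i _
    rw [dist_self]
    exact hε⟩
  refine ⟨j, fun x hx i hi => ?_⟩
  have h1 := hj i (Finset.mem_range.2 (by omega))
  have h2 := (ContinuousMap.dist_lt_iff hε).1 h1 ⟨x, hx⟩
  have h3 : iteratedFDeriv ℝ i (fun y => (q j).1 y - f y) x =
      iteratedFDeriv ℝ i (q j).1 x - iteratedFDeriv ℝ i f x :=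
    fun_iteratedFDeriv_sub_apply ((hat (q j) i x (hKΩ k hx)).of_le (by exact_mod_cast le_top))
      ((hat ⟨f, hf⟩ i x (hKΩ k hx)).of_le (by exact_mod_cast le_top))
  rw [h3, ← dist_eq_norm]
  exact h2

theorem bump {K L : Set E} (hK : IsCompact K) (hL : K ⊆ interior L) :
    ∃ χ : E → ℝ, ContDiff ℝ ∞ χ ∧ (∀ x ∈ K, ∀ᶠ y in 𝓝 x, χ y = 1) ∧ ∀ x ∉ L, χ x = 0 := by
  obtain ⟨f, h1, h2, -⟩ := exists_contMDiffMap_one_nhds_of_subset_interior (n := (⊤ : ℕ∞))
    (modelWithCornersSelf ℝ E) hK.isClosed hL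
  refine ⟨f, f.contMDiff.contDiff, fun x hx => ?_, h2⟩
  exact (Filter.Eventually.filter_mono (nhds_le_nhdsSet hx) h1)

end General

section General2

variable {E 𝕜 : Type*} [NormedAddCommGroup E] [NormedSpace ℝ E] [FiniteDimensional ℝ E] [RCLike 𝕜]

theorem wco_one_iterate (ψ : E → E) (f : E → 𝕜) (m : ℕ) (x : E) :
    (wco (fun _ => (1 : 𝕜)) ψ)^[m] f x = f (ψ^[m] x) := by
  induction m generalizing f x with
  | zero => rfl
  | succ n ih =>
    rw [Function.iterate_succ_apply, ih, Function.iterate_succ_apply']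
    simp [wco]

theorem smooth_iterate {Ω : Set E} {ψ : E → E} (hψ : ContDiffOn ℝ ∞ ψ Ω) (hm : MapsTo ψ Ω Ω)
    (n : ℕ) : ContDiffOn ℝ ∞ ψ^[n] Ω ∧ MapsTo ψ^[n] Ω Ω := by
  induction n with
  | zero => exact ⟨contDiffOn_id, mapsTo_id _⟩
  | succ n ih =>
    rw [Function.iterate_succ]
    exact ⟨ih.1.comp hψ hm, ih.2.comp hm⟩

theorem hyper {Ω : Set E} (hΩ : IsOpen Ω) (K : ℕ → Set E) (hK : ∀ k, IsCompact (K k))
    (hKΩ : ∀ k, K k ⊆ Ω) (hKi : ∀ k, K k ⊆ interior (K (k + 1)))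
    (hKe : ∀ L : Set E, IsCompact L → L ⊆ Ω → ∃ k, L ⊆ K k)
    {ψ φ : E → E} (hψ : ContDiffOn ℝ ∞ ψ Ω) (hψm : MapsTo ψ Ω Ω)
    (hφ : ContDiffOn ℝ ∞ φ Ω) (hφm : MapsTo φ Ω Ω)
    (h1 : ∀ x ∈ Ω, φ (ψ x) = x) (h2 : ∀ x ∈ Ω, ψ (φ x) = x)
    (hrun : ∀ L : Set E, IsCompact L → L ⊆ Ω → ∃ n : ℕ, Disjoint (ψ^[n] '' L) L) :
    Hypercyclic Ω (fun _ => (1 : 𝕜)) ψ := by
  classical
  have h1n : ∀ (n : ℕ), ∀ x ∈ Ω, φ^[n] (ψ^[n] x) = x := by
    intro n
    induction n with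
    | zero => intro x _; rfl
    | succ n ih =>
      intro x hx
      rw [Function.iterate_succ_apply (f := φ), Function.iterate_succ_apply' (f := ψ),
        h1 _ ((smooth_iterate hψ hψm n).2 hx), ih x hx]
  have h2n : ∀ (n : ℕ), ∀ x ∈ Ω, ψ^[n] (φ^[n] x) = x := by
    intro n
    induction n with
    | zero => intro x _; rfl
    | succ n ih =>
      intro x hx
      rw [Function.iterate_succ_apply (f := ψ), Function.iterate_succ_apply' (f := φ),
        h2 _ ((smooth_iterate hφ hφm n).2 hx), ih x hx]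
  have hKmono : ∀ k l, k ≤ l → K k ⊆ K l := by
    intro k l hkl
    induction hkl with
    | refl => exact subset_rfl
    | step _ ih => exact ih.trans ((hKi _).trans interior_subset)
  obtain ⟨q, hqs, hq⟩ := dense_seq (𝕜 := 𝕜) hΩ K hK hKΩ
  choose N hN using hrun
  -- the compact sets `C k`
  let step : ℕ → {C : Set E // IsCompact C ∧ C ⊆ Ω} → {C : Set E // IsCompact C ∧ C ⊆ Ω} :=
    fun k C => ⟨K (k + 2) ∪ C.1 ∪ ψ^[N C.1 C.2.1 C.2.2] '' C.1, by
      constructor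
      · exact ((hK _).union C.2.1).union
          (C.2.1.image_of_continuousOn
            ((smooth_iterate hψ hψm _).1.continuousOn.mono C.2.2))
      · refine union_subset (union_subset (hKΩ _) C.2.2) ?_
        rintro _ ⟨x, hx, rfl⟩
        exact (smooth_iterate hψ hψm _).2 (C.2.2 hx)⟩
  let C : ℕ → {C : Set E // IsCompact C ∧ C ⊆ Ω} := fun k =>
    Nat.rec ⟨K 1, hK 1, hKΩ 1⟩ step k
  let n : ℕ → ℕ := fun k => N (C k).1 (C k).2.1 (C k).2.2
  have hCs : ∀ k, (C (k + 1)).1 = K (k + 2) ∪ (C k).1 ∪ ψ^[n k] '' (C k).1 := fun k => rfl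
  have hCK : ∀ k, K (k + 1) ⊆ (C k).1 := by
    intro k
    cases k with
    | zero => exact subset_rfl
    | succ k =>
      rw [hCs]
      exact subset_union_left.trans subset_union_left
  have hCm : ∀ k l, k ≤ l → (C k).1 ⊆ (C l).1 := by
    intro k l hkl
    induction hkl with
    | refl => exact subset_rfl
    | step _ ih =>
      rw [hCs]
      exact ih.trans (subset_union_right.trans subset_union_left)
  have hCn : ∀ k, Disjoint (ψ^[n k] '' (C k).1) (C k).1 := fun k => hN _ _ _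
  -- the images `D k`
  have hD1 : ∀ k, Disjoint (ψ^[n k] '' K (k + 1)) (C k).1 := fun k =>
    (hCn k).mono_left (image_mono (hCK k))
  have hD2 : ∀ j k, j < k → ψ^[n j] '' K (j + 1) ⊆ (C k).1 := by
    intro j k hjk
    refine (image_mono (hCK j)).trans (subset_trans ?_ (hCm (j + 1) k hjk))
    rw [hCs]
    exact subset_union_right
  have hDD : ∀ j k, j ≠ k → Disjoint (ψ^[n j] '' K (j + 1)) (ψ^[n k] '' K (k + 1)) := by
    intro j k hjk
    rcases lt_or_gt_of_ne hjk with h | h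
    · exact ((hD1 k).mono_right (hD2 j k h)).symm
    · exact (hD1 j).mono_right (hD2 k j h)
  choose χ hχs hχ1 hχ0 using fun k => bump (hK k) (hKi k)
  let f : ℕ → E → 𝕜 := fun k => q (Nat.unpair k).1
  let term : ℕ → E → 𝕜 := fun k y => (χ k (φ^[n k] y)) • f k (φ^[n k] y)
  have hterm0 : ∀ k, ∀ y ∈ Ω, y ∉ ψ^[n k] '' K (k + 1) → term k y = 0 := by
    intro k y hy hyn
    have : φ^[n k] y ∉ K (k + 1) := fun h => hyn ⟨_, h, h2n _ y hy⟩
    simp only [term]
    rw [hχ0 k _ this, zero_smul]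
  have hterms : ∀ k, ContDiffOn ℝ ∞ (term k) Ω := by
    intro k
    have hs := smooth_iterate hφ hφm (n k)
    exact ((hχs k).comp_contDiffOn hs.1).smul ((hqs _).comp hs.1 hs.2)
  let g : E → 𝕜 := fun y => ∑' k, term k y
  have hgfin : ∀ j, ∀ y ∈ K j, g y = ∑ k ∈ Finset.range j, term k y := by
    intro j y hy
    refine tsum_eq_sum fun k hk => ?_
    apply hterm0 k y (hKΩ j hy)
    intro hmem
    rw [Finset.mem_range, not_lt] at hk
    exact (disjoint_left.1 (hD1 k)) hmem (hCK k (hKmono j (k + 1) (by omega) hy))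
  have hg : ContDiffOn ℝ ∞ g Ω := by
    intro x hx
    obtain ⟨j, hj⟩ := hKe {x} isCompact_singleton (singleton_subset_iff.2 hx)
    have hxj : x ∈ interior (K (j + 1)) := hKi j (hj rfl)
    have hs : ContDiffAt ℝ ∞ (fun y => ∑ k ∈ Finset.range (j + 1), term k y) x :=
      ContDiffAt.sum fun k _ => (hterms k).contDiffAt (hΩ.mem_nhds hx)
    refine (hs.congr_of_eventuallyEq ?_).contDiffWithinAt
    filter_upwards [isOpen_interior.mem_nhds hxj] with y hy
    exact hgfin _ y (interior_subset hy)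
  refine ⟨g, hg, fun F hF L hL hLΩ m ε hε => ?_⟩
  obtain ⟨k₀, hk₀⟩ := hKe L hL hLΩ
  obtain ⟨j, hj⟩ := hq F hF k₀ m ε hε
  set k : ℕ := Nat.pair j k₀ with hk
  have hkk : k₀ ≤ k := Nat.right_le_pair j k₀
  have hfk : f k = q j := by
    simp only [f, hk, Nat.unpair_pair]
  refine ⟨n k, fun x hx i hi => ?_⟩
  have hxk : x ∈ K k := hKmono k₀ k hkk (hk₀ hx)
  have hloc : ∀ᶠ y in 𝓝 x, (wco (fun _ => (1 : 𝕜)) ψ)^[n k] g y = q j y := by
    filter_upwards [hχ1 k x hxk, isOpen_interior.mem_nhds (hKi k hxk)] with y hy1 hy2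
    have hyK : y ∈ K (k + 1) := interior_subset hy2
    have hyΩ : y ∈ Ω := hKΩ _ hyK
    rw [wco_one_iterate]
    have hd : ψ^[n k] y ∈ ψ^[n k] '' K (k + 1) := mem_image_of_mem _ hyK
    have hψΩ : ψ^[n k] y ∈ Ω := (smooth_iterate hψ hψm _).2 hyΩ
    have e1 : g (ψ^[n k] y) = term k (ψ^[n k] y) := by
      refine tsum_eq_single k fun l hl => ?_
      exact hterm0 l _ hψΩ fun h => (disjoint_left.1 (hDD l k hl)) h hd
    rw [e1]
    simp only [term]
    rw [h1n _ y hyΩ, hy1, one_smul, hfk]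
  have hev : (fun y => (wco (fun _ => (1 : 𝕜)) ψ)^[n k] g y - F y) =ᶠ[𝓝 x] fun y => q j y - F y := by
    filter_upwards [hloc] with y hy
    rw [hy]
  rw [(hev.iteratedFDeriv ℝ i).eq_of_nhds]
  exact hj x (hk₀ hx) i hi

end General2

/-! ### the slow function -/

/-- slow oscillation with zero windows and large windows -/
noncomputable def theta (t : ℝ) : ℝ :=
  (1 + t ^ 2) * Real.smoothTransition (2 * Real.sin (Real.log (1 + t ^ 2)))

theorem theta_nonneg (t : ℝ) : 0 ≤ theta t :=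
  mul_nonneg (by positivity) (Real.smoothTransition.nonneg _)

theorem theta_smooth : ContDiff ℝ ∞ theta := by
  have h1 : ContDiff ℝ ∞ fun t : ℝ => Real.log (1 + t ^ 2) := by
    apply ContDiff.log
    · fun_prop
    · intro t; positivity
  have h2 : ContDiff ℝ ∞ fun t : ℝ => 2 * Real.sin (Real.log (1 + t ^ 2)) :=
    contDiff_const.mul (Real.contDiff_sin.comp h1)
  have h3 : ContDiff ℝ ∞ fun t : ℝ => 1 + t ^ 2 := by fun_prop
  exact h3.mul (Real.smoothTransition.contDiff.comp h2)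

theorem slow {c T t : ℝ} (hc : 0 ≤ c) (hT : 16 * c ≤ T) (ht : |t - T| ≤ c) :
    |Real.log (1 + t ^ 2) - Real.log (1 + T ^ 2)| ≤ 1 / 2 := by
  have h0 : 0 < 1 + T ^ 2 := by positivity
  have h0t : 0 < 1 + t ^ 2 := by positivity
  obtain ⟨h1, h2⟩ := abs_le.1 ht
  have hT0 : 0 ≤ T := by linarith
  have h3 : t ^ 2 - T ^ 2 ≤ (1 + T ^ 2) / 4 := by nlinarith [mul_nonneg hc hT0]
  have h4 : -((1 + T ^ 2) / 4) ≤ t ^ 2 - T ^ 2 := by nlinarith [mul_nonneg hc hT0]
  rw [← Real.log_div h0t.ne' h0.ne', abs_le]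
  constructor
  · have h5 : 3 / 4 ≤ (1 + t ^ 2) / (1 + T ^ 2) := by
      rw [le_div_iff₀ h0]; linarith
    have h6 : Real.log (3 / 4) ≤ Real.log ((1 + t ^ 2) / (1 + T ^ 2)) :=
      Real.log_le_log (by norm_num) h5
    have h7 := Real.one_sub_inv_le_log_of_pos (show (0 : ℝ) < 3 / 4 by norm_num)
    norm_num at h7
    linarith
  · have h5 : (1 + t ^ 2) / (1 + T ^ 2) ≤ 5 / 4 := by
      rw [div_le_iff₀ h0]; linarith
    have h6 : Real.log ((1 + t ^ 2) / (1 + T ^ 2)) ≤ Real.log (5 / 4) :=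
      Real.log_le_log (by positivity) h5
    have h7 := Real.log_le_sub_one_of_pos (show (0 : ℝ) < 5 / 4 by norm_num)
    linarith

theorem phase (φ₀ R : ℝ) : ∃ T : ℝ, R ≤ T ∧ 0 ≤ T ∧ ∃ k : ℕ, Real.log (1 + T ^ 2) = φ₀ + k * (2 * Real.pi) := by
  obtain ⟨k, hk⟩ := exists_nat_ge ((Real.log (1 + R ^ 2) - φ₀) / (2 * Real.pi))
  have hpi : 0 < 2 * Real.pi := by positivity
  rw [div_le_iff₀ hpi] at hk
  have h1 : 1 + R ^ 2 ≤ Real.exp (φ₀ + k * (2 * Real.pi)) := by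
    rw [← Real.exp_log (show 0 < 1 + R ^ 2 by positivity)]
    exact Real.exp_le_exp.2 (by linarith)
  refine ⟨√(Real.exp (φ₀ + k * (2 * Real.pi)) - 1), ?_, Real.sqrt_nonneg _, k, ?_⟩
  · exact Real.le_sqrt_of_sq_le (by linarith)
  · rw [Real.sq_sqrt (by nlinarith [sq_nonneg R])]
    rw [add_sub_cancel, Real.log_exp]

theorem cos_lower {δ : ℝ} (h : |δ| ≤ 1 / 2) : 1 / 2 ≤ Real.cos δ := by
  have h1 := Real.one_sub_sq_div_two_le_cos (x := δ)
  have h2 : δ ^ 2 ≤ 1 / 4 := by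
    rw [← sq_abs]
    nlinarith [abs_nonneg δ]
  linarith

theorem zero_window (c R : ℝ) (hc : 0 ≤ c) : ∃ T : ℝ, R ≤ T ∧ 0 ≤ T ∧ ∀ t, |t - T| ≤ c → theta t = 0 := by
  obtain ⟨T, h1, h0, k, hk⟩ := phase (-(Real.pi / 2)) (max R (16 * c))
  refine ⟨T, (le_max_left _ _).trans h1, h0, fun t ht => ?_⟩
  have h2 := slow hc ((le_max_right _ _).trans h1) ht
  set δ : ℝ := Real.log (1 + t ^ 2) - Real.log (1 + T ^ 2) with hδ
  have h3 : Real.sin (Real.log (1 + t ^ 2)) = - Real.cos δ := by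
    have e : Real.log (1 + t ^ 2) = (δ - Real.pi / 2) + k * (2 * Real.pi) := by
      rw [hδ, hk]; ring
    rw [e, Real.sin_add_nat_mul_two_pi, Real.sin_sub_pi_div_two]
  unfold theta
  rw [h3, Real.smoothTransition.zero_of_nonpos, mul_zero]
  have := cos_lower h2
  linarith

theorem large_window (c R M : ℝ) (hc : 0 ≤ c) :
    ∃ T : ℝ, R ≤ T ∧ 0 ≤ T ∧ ∀ t, |t - T| ≤ c → M ≤ theta t := by
  obtain ⟨T, h1, h0, k, hk⟩ := phase (Real.pi / 2) (max (max R (16 * c)) (c + |M|))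
  refine ⟨T, (le_max_left _ _).trans ((le_max_left _ _).trans h1), h0, fun t ht => ?_⟩
  have h2 := slow hc ((le_max_right _ _).trans ((le_max_left _ _).trans h1)) ht
  have h5 := (le_max_right _ _).trans h1
  set δ : ℝ := Real.log (1 + t ^ 2) - Real.log (1 + T ^ 2) with hδ
  have h3 : Real.sin (Real.log (1 + t ^ 2)) = Real.cos δ := by
    have e : Real.log (1 + t ^ 2) = (δ + Real.pi / 2) + k * (2 * Real.pi) := by
      rw [hδ, hk]; ring
    rw [e, Real.sin_add_nat_mul_two_pi, Real.sin_add_pi_div_two]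
  unfold theta
  rw [h3, Real.smoothTransition.one_of_one_le, mul_one]
  · have h6 : |M| ≤ t := by linarith [(abs_le.1 ht).1]
    have h7 := le_abs_self M
    nlinarith [sq_nonneg (t - 1)]
  · have := cos_lower h2
    linarith

/-! ### the cocycle -/

/-- the cut-off of angle -/
noncomputable def cut (a b : ℝ) : ℝ :=
  Real.smoothTransition ((16 - 25 * ((a ^ 2 - b ^ 2) / (a ^ 2 + b ^ 2)) ^ 2) / 7)

/-- the cocycle -/
noncomputable def coc (a b : ℝ) : ℝ := theta (-Real.log (a * b)) * cut a b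

theorem coc_nonneg (a b : ℝ) : 0 ≤ coc a b :=
  mul_nonneg (theta_nonneg _) (Real.smoothTransition.nonneg _)

theorem coc_large {a b : ℝ} (h1 : |b| ≤ 2 * |a|) (h2 : |a| ≤ 2 * |b|) (hb : b ≠ 0) :
    coc a b = theta (-Real.log (a * b)) := by
  unfold coc cut
  rw [Real.smoothTransition.one_of_one_le, mul_one]
  have ha2 : a ^ 2 ≤ 4 * b ^ 2 := by
    rw [← sq_abs a, ← sq_abs b]
    nlinarith [abs_nonneg a, abs_nonneg b]
  have hb2 : b ^ 2 ≤ 4 * a ^ 2 := by
    rw [← sq_abs a, ← sq_abs b]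
    nlinarith [abs_nonneg a, abs_nonneg b]
  have hpos : 0 < a ^ 2 + b ^ 2 := by positivity
  have h3 : |(a ^ 2 - b ^ 2) / (a ^ 2 + b ^ 2)| ≤ 3 / 5 := by
    rw [abs_le]
    constructor
    · rw [le_div_iff₀ hpos]; linarith
    · rw [div_le_iff₀ hpos]; linarith
  have h4 : ((a ^ 2 - b ^ 2) / (a ^ 2 + b ^ 2)) ^ 2 ≤ 9 / 25 := by
    rw [← sq_abs]
    nlinarith [abs_nonneg ((a ^ 2 - b ^ 2) / (a ^ 2 + b ^ 2))]
  linarith

theorem coc_smooth : ContDiffOn ℝ ∞ (fun p : ℝ × ℝ => coc p.1 p.2) {p | 0 < p.1 ^ 2 + p.2 ^ 2} := by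
  intro p hp
  have hp' : p.1 ^ 2 + p.2 ^ 2 ≠ 0 := ne_of_gt hp
  apply ContDiffAt.contDiffWithinAt
  have hv : ContDiffAt ℝ ∞ (fun p : ℝ × ℝ => (16 - 25 * ((p.1 ^ 2 - p.2 ^ 2) /
      (p.1 ^ 2 + p.2 ^ 2)) ^ 2) / 7) p := by
    have h1 : ContDiffAt ℝ ∞ (fun p : ℝ × ℝ => (p.1 ^ 2 - p.2 ^ 2) / (p.1 ^ 2 + p.2 ^ 2)) p :=
      ContDiffAt.div (by fun_prop) (by fun_prop) hp'
    exact ((contDiffAt_const.sub (contDiffAt_const.mul (h1.pow 2))).div_const 7)
  by_cases h0 : p.1 * p.2 = 0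
  · have hneg : (16 - 25 * ((p.1 ^ 2 - p.2 ^ 2) / (p.1 ^ 2 + p.2 ^ 2)) ^ 2) / 7 < 0 := by
      have h1 : ((p.1 ^ 2 - p.2 ^ 2) / (p.1 ^ 2 + p.2 ^ 2)) ^ 2 = 1 := by
        rw [div_pow, div_eq_one_iff_eq (pow_ne_zero 2 hp')]
        rcases mul_eq_zero.1 h0 with h | h <;> rw [h] <;> ring
      rw [h1]; norm_num
    have hev : (fun p : ℝ × ℝ => coc p.1 p.2) =ᶠ[𝓝 p] fun _ => 0 := by
      filter_upwards [hv.continuousAt.eventually_lt continuousAt_const hneg] with y hy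
      unfold coc cut
      rw [Real.smoothTransition.zero_of_nonpos hy.le, mul_zero]
    exact contDiffAt_const.congr_of_eventuallyEq hev
  · have h3 : ContDiffAt ℝ ∞ (fun p : ℝ × ℝ => p.1 * p.2) p := by fun_prop
    have h1 : ContDiffAt ℝ ∞ (fun p : ℝ × ℝ => -Real.log (p.1 * p.2)) p := (h3.log h0).neg
    have h2 : ContDiffAt ℝ ∞ (fun p : ℝ × ℝ => theta (-Real.log (p.1 * p.2))) p :=
      theta_smooth.contDiffAt.comp p h1
    exact h2.mul (Real.smoothTransition.contDiff.contDiffAt.comp p hv)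

section Map

variable {d : ℕ} (hd : 3 ≤ d)

/-- first coordinate index -/
def i0 : Fin d := ⟨0, by omega⟩
/-- second coordinate index -/
def i1 : Fin d := ⟨1, by omega⟩
/-- third coordinate index -/
def i2 : Fin d := ⟨2, by omega⟩

theorem i01 : i1 hd ≠ i0 hd := by simp [i0, i1]
theorem i02 : i2 hd ≠ i0 hd := by simp [i0, i2]
theorem i12 : i2 hd ≠ i1 hd := by simp [i1, i2]

/-- the domain -/
def Om : Set (EuclideanSpace ℝ (Fin d)) := {x | 0 < x (i0 hd) ^ 2 + x (i1 hd) ^ 2}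

/-- the map -/
noncomputable def psi (x : EuclideanSpace ℝ (Fin d)) : EuclideanSpace ℝ (Fin d) :=
  WithLp.toLp 2 fun i => if i = i0 hd then 2 * x (i0 hd) else if i = i1 hd then x (i1 hd) / 2
    else if i = i2 hd then x (i2 hd) + coc (x (i0 hd)) (x (i1 hd)) else x i

/-- its inverse -/
noncomputable def phi (x : EuclideanSpace ℝ (Fin d)) : EuclideanSpace ℝ (Fin d) :=
  WithLp.toLp 2 fun i => if i = i0 hd then x (i0 hd) / 2 else if i = i1 hd then 2 * x (i1 hd)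
    else if i = i2 hd then x (i2 hd) - coc (x (i0 hd) / 2) (2 * x (i1 hd)) else x i

theorem psi0 (x : EuclideanSpace ℝ (Fin d)) : psi hd x (i0 hd) = 2 * x (i0 hd) := by
  simp [psi]
theorem psi1 (x : EuclideanSpace ℝ (Fin d)) : psi hd x (i1 hd) = x (i1 hd) / 2 := by
  simp [psi, i01]
theorem psi2 (x : EuclideanSpace ℝ (Fin d)) :
    psi hd x (i2 hd) = x (i2 hd) + coc (x (i0 hd)) (x (i1 hd)) := by
  simp [psi, i02, i12]
theorem phi0 (x : EuclideanSpace ℝ (Fin d)) : phi hd x (i0 hd) = x (i0 hd) / 2 := by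
  simp [phi]
theorem phi1 (x : EuclideanSpace ℝ (Fin d)) : phi hd x (i1 hd) = 2 * x (i1 hd) := by
  simp [phi, i01]
theorem phi2 (x : EuclideanSpace ℝ (Fin d)) :
    phi hd x (i2 hd) = x (i2 hd) - coc (x (i0 hd) / 2) (2 * x (i1 hd)) := by
  simp [phi, i02, i12]

theorem Om_open : IsOpen (Om hd) := by
  unfold Om
  exact isOpen_lt continuous_const (by fun_prop)

theorem coord (x y : EuclideanSpace ℝ (Fin d)) (h : ∀ i, x i = y i) : x = y := by
  ext i
  exact h i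

theorem phi_psi (x : EuclideanSpace ℝ (Fin d)) : phi hd (psi hd x) = x := by
  apply coord
  intro i
  by_cases h0 : i = i0 hd
  · subst h0; rw [phi0, psi0]; ring
  by_cases h1 : i = i1 hd
  · subst h1; rw [phi1, psi1]; ring
  by_cases h2 : i = i2 hd
  · subst h2
    rw [phi2, psi0, psi1, psi2]
    have e1 : 2 * x (i0 hd) / 2 = x (i0 hd) := by ring
    have e2 : 2 * (x (i1 hd) / 2) = x (i1 hd) := by ring
    rw [e1, e2]
    ring
  simp [phi, psi, h0, h1, h2]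

theorem psi_phi (x : EuclideanSpace ℝ (Fin d)) : psi hd (phi hd x) = x := by
  apply coord
  intro i
  by_cases h0 : i = i0 hd
  · subst h0; rw [psi0, phi0]; ring
  by_cases h1 : i = i1 hd
  · subst h1; rw [psi1, phi1]; ring
  by_cases h2 : i = i2 hd
  · subst h2
    rw [psi2, phi0, phi1, phi2]
    ring
  simp [phi, psi, h0, h1, h2]

theorem psi_maps : MapsTo (psi hd) (Om hd) (Om hd) := by
  intro x hx
  simp only [Om, mem_ofPred] at hx ⊢
  rw [psi0, psi1]
  nlinarith [sq_nonneg (x (i0 hd)), sq_nonneg (x (i1 hd))]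

theorem phi_maps : MapsTo (phi hd) (Om hd) (Om hd) := by
  intro x hx
  simp only [Om, mem_ofPred] at hx ⊢
  rw [phi0, phi1]
  nlinarith [sq_nonneg (x (i0 hd)), sq_nonneg (x (i1 hd))]

theorem psi_smooth : ContDiffOn ℝ ∞ (psi hd) (Om hd) := by
  rw [contDiffOn_euclidean]
  intro i
  have hc : ∀ j : Fin d, ContDiffOn ℝ ∞ (fun x : EuclideanSpace ℝ (Fin d) => x j) (Om hd) :=
    fun j => by fun_prop
  have hpair : ContDiffOn ℝ ∞ (fun x : EuclideanSpace ℝ (Fin d) => (x (i0 hd), x (i1 hd)))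
    (Om hd) := (hc _).prodMk (hc _)
  have hco : ContDiffOn ℝ ∞ (fun x : EuclideanSpace ℝ (Fin d) => coc (x (i0 hd)) (x (i1 hd)))
      (Om hd) := coc_smooth.comp hpair fun x hx => hx
  by_cases h0 : i = i0 hd
  · subst h0
    exact (contDiffOn_const.mul (hc _)).congr fun x _ => psi0 hd x
  by_cases h1 : i = i1 hd
  · subst h1
    exact ((hc _).div_const 2).congr fun x _ => psi1 hd x
  by_cases h2 : i = i2 hd
  · subst h2
    exact ((hc _).add hco).congr fun x _ => psi2 hd x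
  exact (hc i).congr fun x _ => by simp [psi, h0, h1, h2]

theorem phi_smooth : ContDiffOn ℝ ∞ (phi hd) (Om hd) := by
  rw [contDiffOn_euclidean]
  intro i
  have hc : ∀ j : Fin d, ContDiffOn ℝ ∞ (fun x : EuclideanSpace ℝ (Fin d) => x j) (Om hd) :=
    fun j => by fun_prop
  have hpair : ContDiffOn ℝ ∞ (fun x : EuclideanSpace ℝ (Fin d) =>
      (x (i0 hd) / 2, 2 * x (i1 hd))) (Om hd) :=
    ((hc _).div_const 2).prodMk (contDiffOn_const.mul (hc _))
  have hco : ContDiffOn ℝ ∞ (fun x : EuclideanSpace ℝ (Fin d) =>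
      coc (x (i0 hd) / 2) (2 * x (i1 hd))) (Om hd) :=
    coc_smooth.comp hpair fun x hx => by
      simp only [Om, mem_ofPred] at hx ⊢
      nlinarith [sq_nonneg (x (i0 hd)), sq_nonneg (x (i1 hd))]
  by_cases h0 : i = i0 hd
  · subst h0
    exact ((hc _).div_const 2).congr fun x _ => phi0 hd x
  by_cases h1 : i = i1 hd
  · subst h1
    exact (contDiffOn_const.mul (hc _)).congr fun x _ => phi1 hd x
  by_cases h2 : i = i2 hd
  · subst h2
    exact ((hc _).sub hco).congr fun x _ => phi2 hd x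
  exact (hc i).congr fun x _ => by simp [phi, h0, h1, h2]

theorem iter0 (n : ℕ) (x : EuclideanSpace ℝ (Fin d)) :
    (psi hd)^[n] x (i0 hd) = 2 ^ n * x (i0 hd) := by
  induction n with
  | zero => simp
  | succ n ih => rw [Function.iterate_succ_apply', psi0, ih]; ring

theorem iter1 (n : ℕ) (x : EuclideanSpace ℝ (Fin d)) :
    (psi hd)^[n] x (i1 hd) = x (i1 hd) / 2 ^ n := by
  induction n with
  | zero => simp
  | succ n ih => rw [Function.iterate_succ_apply', psi1, ih]; field_simp; ring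

theorem iter2 (n : ℕ) (x : EuclideanSpace ℝ (Fin d)) :
    (psi hd)^[n] x (i2 hd) =
      x (i2 hd) + ∑ j ∈ Finset.range n, coc (2 ^ j * x (i0 hd)) (x (i1 hd) / 2 ^ j) := by
  induction n with
  | zero => simp
  | succ n ih =>
    rw [Function.iterate_succ_apply', psi2, ih, iter0, iter1, Finset.sum_range_succ]
    ring

theorem iter2_ge (n j : ℕ) (hj : j < n) (x : EuclideanSpace ℝ (Fin d)) :
    x (i2 hd) + coc (2 ^ j * x (i0 hd)) (x (i1 hd) / 2 ^ j) ≤ (psi hd)^[n] x (i2 hd) := by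
  rw [iter2]
  gcongr
  exact Finset.single_le_sum (f := fun j => coc (2 ^ j * x (i0 hd)) (x (i1 hd) / 2 ^ j))
    (fun i _ => coc_nonneg _ _) (Finset.mem_range.2 hj)

/-- the exhaustion -/
def KK (k : ℕ) : Set (EuclideanSpace ℝ (Fin d)) :=
  {x | ‖x‖ ≤ k + 1 ∧ 1 / ((k : ℝ) + 1) ≤ x (i0 hd) ^ 2 + x (i1 hd) ^ 2}

theorem KK_compact (k : ℕ) : IsCompact (KK hd k) := by
  have hcont : Continuous fun x : EuclideanSpace ℝ (Fin d) => x (i0 hd) ^ 2 + x (i1 hd) ^ 2 := by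
    fun_prop
  have h1 : IsClosed (KK hd k) := by
    unfold KK
    exact (isClosed_le continuous_norm continuous_const).inter
      (isClosed_le continuous_const hcont)
  refine (isCompact_closedBall (0 : EuclideanSpace ℝ (Fin d)) (k + 1)).of_isClosed_subset h1 ?_
  intro x hx
  rw [mem_closedBall_zero_iff]
  exact hx.1

theorem KK_sub (k : ℕ) : KK hd k ⊆ Om hd := by
  intro x hx
  have : (0 : ℝ) < 1 / ((k : ℝ) + 1) := by positivity
  exact this.trans_le hx.2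

theorem KK_int (k : ℕ) : KK hd k ⊆ interior (KK hd (k + 1)) := by
  have hcont : Continuous fun x : EuclideanSpace ℝ (Fin d) => x (i0 hd) ^ 2 + x (i1 hd) ^ 2 := by
    fun_prop
  have h1 : IsOpen {x : EuclideanSpace ℝ (Fin d) | ‖x‖ < ((k + 1 : ℕ) : ℝ) + 1 ∧
      1 / (((k + 1 : ℕ) : ℝ) + 1) < x (i0 hd) ^ 2 + x (i1 hd) ^ 2} :=
    (isOpen_lt continuous_norm continuous_const).inter
      (isOpen_lt continuous_const hcont)
  refine subset_trans ?_ (interior_maximal (s := KK hd (k + 1)) (fun x hx => ⟨hx.1.le, hx.2.le⟩) h1)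
  intro x hx
  refine ⟨?_, ?_⟩
  · have := hx.1
    push_cast
    linarith
  · refine lt_of_lt_of_le ?_ hx.2
    apply one_div_lt_one_div_of_lt (by positivity)
    push_cast
    linarith

theorem KK_exh (L : Set (EuclideanSpace ℝ (Fin d))) (hL : IsCompact L) (hLO : L ⊆ Om hd) :
    ∃ k, L ⊆ KK hd k := by
  obtain ⟨R, hR⟩ := hL.isBounded.exists_norm_le
  have hm : ∃ m : ℝ, 0 < m ∧ ∀ x ∈ L, m ≤ x (i0 hd) ^ 2 + x (i1 hd) ^ 2 := by
    rcases L.eq_empty_or_nonempty with h | h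
    · exact ⟨1, one_pos, by rw [h]; simp⟩
    · have hc : ContinuousOn (fun x : EuclideanSpace ℝ (Fin d) => x (i0 hd) ^ 2 + x (i1 hd) ^ 2) L := by
        fun_prop
      obtain ⟨x, hx, hmin⟩ := hL.exists_isMinOn h hc
      exact ⟨_, hLO hx, fun y hy => hmin hy⟩
  obtain ⟨m, hm0, hm⟩ := hm
  obtain ⟨k, hk⟩ := exists_nat_ge (max R (1 / m))
  refine ⟨k, fun x hx => ⟨?_, ?_⟩⟩
  · have := hR x hx
    have := (le_max_left _ _).trans hk
    linarith
  · refine le_trans ?_ (hm x hx)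
    have h1 := (le_max_right _ _).trans hk
    rw [div_le_iff₀ hm0] at h1
    rw [div_le_iff₀ (by positivity)]
    nlinarith

end Map

section Dyn

/-- transit through the sector `|b|/2 ≤ |a| ≤ 2|b|` -/
theorem transit {a b : ℝ} {n : ℕ} (h0 : 2 * |a| < |b|) (hn : |b| ≤ 2 * (4 ^ (n - 1) * |a|)) :
    ∃ j < n, |b / 2 ^ j| ≤ 2 * |2 ^ j * a| ∧ |2 ^ j * a| ≤ 2 * |b / 2 ^ j| := by
  classical
  have hex : ∃ j : ℕ, |b| ≤ 2 * (4 ^ j * |a|) := ⟨n - 1, hn⟩
  set j := Nat.find hex with hj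
  have hj1 : |b| ≤ 2 * (4 ^ j * |a|) := Nat.find_spec hex
  have hj2 : j ≤ n - 1 := Nat.find_min' hex hn
  have hj0 : j ≠ 0 := by
    intro h
    rw [h] at hj1
    simp at hj1
    linarith
  have hn1 : j < n := by omega
  have hj3 : ¬ (|b| ≤ 2 * (4 ^ (j - 1) * |a|)) := Nat.find_min hex (by omega)
  rw [not_le] at hj3
  have e4 : (4 : ℝ) ^ j = 4 * 4 ^ (j - 1) := by
    rw [← pow_succ']
    congr 1
    omega
  have e5 : (4 : ℝ) ^ j = 2 ^ j * 2 ^ j := by
    rw [← mul_pow]; norm_num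
  have h2 : (0 : ℝ) < 2 ^ j := by positivity
  refine ⟨j, hn1, ?_, ?_⟩
  · rw [abs_div, abs_mul, abs_of_pos h2, div_le_iff₀ h2]
    calc |b| ≤ 2 * (4 ^ j * |a|) := hj1
      _ = _ := by rw [e5]; ring
  · rw [abs_div, abs_mul, abs_of_pos h2, ← mul_div_assoc, le_div_iff₀ h2]
    calc 2 ^ j * |a| * 2 ^ j = 4 ^ j * |a| := by rw [e5]; ring
      _ ≤ 2 * |b| := by
        rw [e4]
        linarith

variable {d : ℕ} (hd : 3 ≤ d)

theorem coord_le (x : EuclideanSpace ℝ (Fin d)) (i : Fin d) : |x i| ≤ ‖x‖ := by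
  have := PiLp.norm_apply_le x i
  rwa [Real.norm_eq_abs] at this

theorem run_away (L : Set (EuclideanSpace ℝ (Fin d))) (hL : IsCompact L) (hLO : L ⊆ Om hd) :
    ∃ n : ℕ, Disjoint ((psi hd)^[n] '' L) L := by
  obtain ⟨k, hk⟩ := KK_exh hd L hL hLO
  set R : ℝ := k + 1 with hR
  set ρ : ℝ := 1 / ((k : ℝ) + 1) with hρ
  have hR1 : 1 ≤ R := by
    have : (0 : ℝ) ≤ k := Nat.cast_nonneg k
    linarith
  have hρ0 : 0 < ρ := by positivity
  set c : ℝ := |Real.log (R ^ 4)| + |Real.log (ρ ^ 2 / 4)| + 1 with hc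
  have hc0 : 0 ≤ c := by positivity
  obtain ⟨T, hT1, hT0, hT⟩ := large_window c (8 * R ^ 2 / ρ + 1) (2 * R + 1) hc0
  have hl2 : 0 < Real.log 2 := Real.log_pos (by norm_num)
  have hl21 : Real.log 2 ≤ 1 := by
    have := Real.log_two_lt_d9
    linarith
  set n : ℕ := ⌈T / Real.log 2⌉₊ with hn
  have hn1 : T / Real.log 2 ≤ n := Nat.le_ceil _
  have hn2 : (n : ℝ) < T / Real.log 2 + 1 := Nat.ceil_lt_add_one (by positivity)
  rw [div_le_iff₀ hl2] at hn1
  have hn3 : (n : ℝ) * Real.log 2 ≤ T + Real.log 2 := by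
    have := mul_le_mul_of_nonneg_right hn2.le hl2.le
    rwa [add_mul, div_mul_cancel₀ _ hl2.ne', one_mul] at this
  set D : ℝ := 2 ^ n with hD
  have hD0 : 0 < D := by positivity
  have hnT : T ≤ n := by
    have : (n : ℝ) * Real.log 2 ≤ n := by
      have : (0 : ℝ) ≤ n := Nat.cast_nonneg n
      nlinarith
    linarith
  have hDn : (n : ℝ) ≤ D := by
    have := Nat.lt_two_pow_self (n := n)
    have h2 : ((n : ℕ) : ℝ) ≤ ((2 ^ n : ℕ) : ℝ) := by exact_mod_cast this.le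
    push_cast at h2
    exact h2
  have hD1 : 8 * R ^ 2 / ρ + 1 ≤ D := by linarith
  have hD2 : 8 * R ^ 2 < D ^ 2 * ρ := by
    have h3 : (0 : ℝ) ≤ 8 * R ^ 2 / ρ := by positivity
    have h4 : 8 * R ^ 2 / ρ < D ^ 2 := by nlinarith
    rwa [div_lt_iff₀ hρ0] at h4
  have hn0 : n ≠ 0 := by
    intro h
    have h3 : (0 : ℝ) ≤ 8 * R ^ 2 / ρ := by positivity
    rw [h] at hnT
    push_cast at hnT
    linarith
  refine ⟨n, ?_⟩
  rw [Set.disjoint_left]
  rintro y ⟨x, hx, rfl⟩ hy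
  have hxK := hk hx
  have hyK := hk hy
  set y := (psi hd)^[n] x with hydef
  have ey0 : y (i0 hd) = D * x (i0 hd) := iter0 hd n x
  have ey1 : y (i1 hd) = x (i1 hd) / D := iter1 hd n x
  set a := x (i0 hd) with ha
  set b := x (i1 hd) with hb
  have hbR : |b| ≤ R := (coord_le x _).trans hxK.1
  have hy0R : |D * a| ≤ R := by rw [← ey0]; exact (coord_le y _).trans hyK.1
  have hx2 : ρ ≤ a ^ 2 + b ^ 2 := hxK.2
  have hy2 : ρ ≤ (D * a) ^ 2 + (b / D) ^ 2 := by rw [← ey0, ← ey1]; exact hyK.2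
  -- squares
  have hb2R : b ^ 2 ≤ R ^ 2 := by rw [← sq_abs]; exact pow_le_pow_left₀ (abs_nonneg _) hbR 2
  have hDa2 : (D * a) ^ 2 ≤ R ^ 2 := by
    rw [← sq_abs]; exact pow_le_pow_left₀ (abs_nonneg _) hy0R 2
  have hDD : 0 < D ^ 2 := by positivity
  have ha2 : a ^ 2 ≤ ρ / 8 := by
    have h3 : D ^ 2 * a ^ 2 ≤ R ^ 2 := by rw [← mul_pow]; exact hDa2
    have h4 : D ^ 2 * a ^ 2 ≤ D ^ 2 * (ρ / 8) := by nlinarith
    exact le_of_mul_le_mul_left h4 hDD
  have hbD2 : (b / D) ^ 2 ≤ ρ / 8 := by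
    rw [div_pow, div_le_iff₀ hDD]
    nlinarith
  have hb2 : ρ / 2 < b ^ 2 := by linarith
  have hDa : ρ / 2 < (D * a) ^ 2 := by linarith
  have hb0 : b ≠ 0 := by
    intro h
    rw [h] at hb2
    norm_num at hb2
    linarith
  have ha0 : a ≠ 0 := by
    intro h
    rw [h] at hDa
    norm_num at hDa
    linarith
  -- the transit
  have ht0 : 2 * |a| < |b| := by
    apply lt_of_pow_lt_pow_left₀ 2 (abs_nonneg _)
    rw [mul_pow, sq_abs, sq_abs]
    linarith
  have htn : |b| ≤ 2 * (4 ^ (n - 1) * |a|) := by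
    have e1 : (4 : ℝ) ^ (n - 1) = D ^ 2 / 4 := by
      have e2 : (4 : ℝ) ^ n = D ^ 2 := by
        rw [hD, ← pow_mul, mul_comm, pow_mul]; norm_num
      have e3 : (4 : ℝ) ^ n = 4 * 4 ^ (n - 1) := by
        rw [← pow_succ']
        congr 1
        omega
      rw [← e2, e3]; ring
    rw [e1]
    apply le_of_sq_le_sq' _ (by positivity)
    rw [sq_abs]
    have e4 : (2 * (D ^ 2 / 4 * |a|)) ^ 2 = D ^ 2 * (D * a) ^ 2 / 4 := by
      rw [mul_pow, mul_pow, sq_abs]; ring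
    rw [e4]
    nlinarith
  obtain ⟨j, hjn, hj1, hj2⟩ := transit ht0 htn
  have hcoc : coc (2 ^ j * a) (b / 2 ^ j) = theta (-Real.log (a * b)) := by
    rw [coc_large hj1 hj2 (div_ne_zero hb0 (by positivity))]
    congr 3
    field_simp
  -- the value of theta is large
  have hth : 2 * R + 1 ≤ theta (-Real.log (a * b)) := by
    apply hT
    have e1 : -Real.log (a * b) = n * Real.log 2 - Real.log ((D * a * b) ^ 2) / 2 := by
      rw [Real.log_pow, mul_assoc, Real.log_mul hD0.ne' (mul_ne_zero ha0 hb0), hD, Real.log_pow]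
      push_cast
      ring
    have hpos : 0 < ρ ^ 2 / 4 := by positivity
    have h3 : ρ ^ 2 / 4 ≤ (D * a * b) ^ 2 := by
      rw [mul_pow (D * a) b]
      nlinarith
    have h4 : (D * a * b) ^ 2 ≤ R ^ 4 := by
      rw [mul_pow (D * a) b]
      calc (D * a) ^ 2 * b ^ 2 ≤ R ^ 2 * R ^ 2 := by gcongr
        _ = R ^ 4 := by ring
    have h5 := Real.log_le_log hpos h3
    have h6 := Real.log_le_log (hpos.trans_le h3) h4
    have h7 := neg_abs_le (Real.log (ρ ^ 2 / 4))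
    have h8 := le_abs_self (Real.log (R ^ 4))
    have h9 := abs_nonneg (Real.log (ρ ^ 2 / 4))
    have h10 := abs_nonneg (Real.log (R ^ 4))
    rw [e1, abs_le]
    constructor
    · rw [hc]; linarith
    · rw [hc]; linarith
  have hfin := iter2_ge hd n j hjn x
  rw [← ha, ← hb, hcoc] at hfin
  have h11 := (abs_le.1 ((coord_le x (i2 hd)).trans hxK.1)).1
  have h12 := (abs_le.1 ((coord_le y (i2 hd)).trans hyK.1)).2
  linarith
where
  le_of_sq_le_sq' {a b : ℝ} (h : a ^ 2 ≤ b ^ 2) (hb : 0 ≤ b) : a ≤ b := by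
    exact le_of_abs_le_of_sq h hb
  le_of_abs_le_of_sq {a b : ℝ} (h : a ^ 2 ≤ b ^ 2) (hb : 0 ≤ b) : a ≤ b := by
    nlinarith [abs_le_of_sq_le_sq h hb, le_abs_self a]

/-- the points `(a, b, 0, …)` -/
noncomputable def pt (a b : ℝ) : EuclideanSpace ℝ (Fin d) :=
  WithLp.toLp 2 fun i => if i = i0 hd then a else if i = i1 hd then b else 0

theorem pt_iter (a b : ℝ) (h : theta (-Real.log (a * b)) = 0) (n : ℕ) :
    (psi hd)^[n] (pt hd a b) = pt hd (2 ^ n * a) (b / 2 ^ n) := by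
  induction n with
  | zero => simp
  | succ n ih =>
    rw [Function.iterate_succ_apply', ih]
    apply coord
    intro i
    by_cases h0 : i = i0 hd
    · subst h0; rw [psi0]; simp [pt]; ring
    by_cases h1 : i = i1 hd
    · subst h1; rw [psi1]; simp [pt, i01]; field_simp; ring
    by_cases h2 : i = i2 hd
    · subst h2
      rw [psi2]
      simp only [pt, i02, i12, if_false, i01, if_true]
      have e : 2 ^ n * a * (b / 2 ^ n) = a * b := by field_simp
      unfold coc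
      rw [e, h]
      simp
    simp [pt, psi, h0, h1, h2]

theorem pt_cont : Continuous fun p : ℝ × ℝ => pt hd p.1 p.2 := by
  unfold pt
  refine (PiLp.continuous_toLp 2 _).comp (continuous_pi fun i => ?_)
  split_ifs
  · exact continuous_fst
  · exact continuous_snd
  · exact continuous_const

theorem pt_mem {a b : ℝ} (h : 0 < a ^ 2 + b ^ 2) : pt hd a b ∈ Om hd := by
  simp only [Om, mem_ofPred, pt]
  simpa [i01] using h

theorem not_periodic_dense {𝕜 : Type*} [RCLike 𝕜] :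
    ¬ DensePeriodic (Om hd) (fun _ => (1 : 𝕜)) (psi hd) := by
  intro hdp
  set f : EuclideanSpace ℝ (Fin d) → 𝕜 := fun x => ((x (i1 hd) : ℝ) : 𝕜) with hf
  have hfs : ContDiffOn ℝ ∞ f (Om hd) := by
    have h1 : ContDiff ℝ ∞ (RCLike.ofRealCLM : ℝ →L[ℝ] 𝕜) := ContinuousLinearMap.contDiff _
    have h2 : ContDiff ℝ ∞ fun x : EuclideanSpace ℝ (Fin d) => x (i1 hd) := by fun_prop
    exact (h1.comp h2).contDiffOn
  set P := pt hd 0 1 with hP
  set Q := pt hd 1 0 with hQ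
  have hPO : P ∈ Om hd := pt_mem hd (by norm_num)
  have hQO : Q ∈ Om hd := pt_mem hd (by norm_num)
  obtain ⟨g, hg, ⟨p, hp, hper⟩, hnear⟩ := hdp f hfs {P, Q} (by
    exact (Set.toFinite _).isCompact) (by
    intro x hx
    rcases hx with h | h
    · rw [h]; exact hPO
    · rw [h]; exact hQO) 0 (1 / 4) (by norm_num)
  have hnP := hnear P (by simp) 0 le_rfl
  have hnQ := hnear Q (by simp) 0 le_rfl
  rw [norm_iteratedFDeriv_zero] at hnP hnQ
  have hfP : f P = 1 := by simp [hf, hP, pt, i01]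
  have hfQ : f Q = 0 := by simp [hf, hQ, pt, i01]
  rw [hfP] at hnP
  rw [hfQ, sub_zero] at hnQ
  -- periodicity
  have hper1 : ∀ x ∈ Om hd, g ((psi hd)^[p] x) = g x := by
    intro x hx
    have := hper x hx
    rwa [wco_one_iterate] at this
  have hmaps : ∀ n, MapsTo ((psi hd)^[n]) (Om hd) (Om hd) := fun n =>
    (smooth_iterate (psi_smooth hd) (psi_maps hd) n).2
  have hper2 : ∀ (m : ℕ), ∀ x ∈ Om hd, g ((psi hd)^[p * m] x) = g x := by
    intro m
    induction m with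
    | zero => intro x _; simp
    | succ m ih =>
      intro x hx
      rw [Nat.mul_succ, Nat.add_comm, Function.iterate_add_apply, hper1 _ (hmaps _ hx), ih x hx]
  -- times
  have hl2 : 0 < Real.log 2 := Real.log_pos (by norm_num)
  have hl21 : Real.log 2 ≤ 1 := by
    have := Real.log_two_lt_d9
    linarith
  have hp0 : (0 : ℝ) < p := by exact_mod_cast hp
  have htimes : ∀ M : ℕ, ∃ m : ℕ, M ≤ m ∧ theta ((p * m : ℕ) * Real.log 2) = 0 := by
    intro M
    obtain ⟨T, hT1, hT0, hT⟩ := zero_window p (M * p) hp0.le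
    have hq : 0 < p * Real.log 2 := by positivity
    refine ⟨⌈T / (p * Real.log 2)⌉₊, ?_, ?_⟩
    · have h1 : (M : ℝ) ≤ T / (p * Real.log 2) := by
        rw [le_div_iff₀ hq]
        have : (0 : ℝ) ≤ M * p := by positivity
        nlinarith
      exact_mod_cast h1.trans (Nat.le_ceil _)
    · apply hT
      have h1 : T / (p * Real.log 2) ≤ ⌈T / (p * Real.log 2)⌉₊ := Nat.le_ceil _
      have h2 : (⌈T / (p * Real.log 2)⌉₊ : ℝ) < T / (p * Real.log 2) + 1 :=
        Nat.ceil_lt_add_one (by positivity)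
      rw [div_le_iff₀ hq] at h1
      have h3 := mul_le_mul_of_nonneg_right h2.le hq.le
      rw [add_mul, div_mul_cancel₀ _ hq.ne', one_mul] at h3
      rw [abs_le]
      push_cast
      constructor
      · nlinarith
      · nlinarith
  choose m hm1 hm2 using htimes
  have hmt : Tendsto (fun M => p * m M) atTop atTop := by
    refine tendsto_atTop_mono (fun M => ?_) tendsto_id
    exact (hm1 M).trans (Nat.le_mul_of_pos_left _ hp)
  have hsmall : Tendsto (fun M => (1 : ℝ) / 2 ^ (p * m M)) atTop (𝓝 0) := by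
    have h1 : Tendsto (fun n : ℕ => (1 / 2 : ℝ) ^ n) atTop (𝓝 0) :=
      tendsto_pow_atTop_nhds_zero_of_lt_one (by norm_num) (by norm_num)
    have h2 := h1.comp hmt
    refine h2.congr fun M => ?_
    simp
  have hgc : ∀ x ∈ Om hd, ContinuousAt g x := fun x hx =>
    (hg.continuousOn.continuousAt ((Om_open hd).mem_nhds hx))
  have hlimP : Tendsto (fun M => g (pt hd (1 / 2 ^ (p * m M)) 1)) atTop (𝓝 (g P)) := by
    refine (hgc P hPO).tendsto.comp ?_
    have := ((pt_cont hd).tendsto (0, 1)).comp (hsmall.prodMk_nhds tendsto_const_nhds)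
    exact this
  have hlimQ : Tendsto (fun M => g (pt hd 1 (1 / 2 ^ (p * m M)))) atTop (𝓝 (g Q)) := by
    refine (hgc Q hQO).tendsto.comp ?_
    have := ((pt_cont hd).tendsto (1, 0)).comp (tendsto_const_nhds.prodMk_nhds hsmall)
    exact this
  have heq : ∀ M, g (pt hd (1 / 2 ^ (p * m M)) 1) = g (pt hd 1 (1 / 2 ^ (p * m M))) := by
    intro M
    rw [← hper2 (m M) _ (pt_mem hd (by positivity)), pt_iter]
    · congr 2
      field_simp
    · have e : -Real.log (1 / 2 ^ (p * m M) * 1) = (p * m M : ℕ) * Real.log 2 := by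
        rw [mul_one, Real.log_div one_ne_zero (by positivity), Real.log_one, Real.log_pow]
        ring
      rw [e]
      exact hm2 M
  have hPQ : g P = g Q := tendsto_nhds_unique hlimP (by simp_rw [heq]; exact hlimQ)
  rw [hPQ] at hnP
  have h1 : ‖(1 : 𝕜)‖ ≤ ‖g Q - 1‖ + ‖g Q‖ := by
    have := norm_sub_le (g Q) (g Q - 1)
    rw [sub_sub_cancel] at this
    linarith
  rw [norm_one] at h1
  linarith

end Dyn

theorem result (𝕜 : Type) [RCLike 𝕜] (d : ℕ) (hd : 3 ≤ d) :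
    ∃ (Ω : Set (EuclideanSpace ℝ (Fin d))) (w : EuclideanSpace ℝ (Fin d) → 𝕜)
      (ψ : EuclideanSpace ℝ (Fin d) → EuclideanSpace ℝ (Fin d)),
      IsOpen Ω ∧ Ω.Nonempty ∧ ContDiffOn ℝ ∞ w Ω ∧ ContDiffOn ℝ ∞ ψ Ω ∧ MapsTo ψ Ω Ω ∧
      Hypercyclic Ω w ψ ∧ Supercyclic Ω w ψ ∧ ¬ DensePeriodic Ω w ψ ∧ ¬ Chaotic Ω w ψ := by
  have hyp : Hypercyclic (Om hd) (fun _ => (1 : 𝕜)) (psi hd) :=
    hyper (Om_open hd) (KK hd) (KK_compact hd) (KK_sub hd) (KK_int hd) (KK_exh hd)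
      (psi_smooth hd) (psi_maps hd) (phi_smooth hd) (phi_maps hd)
      (fun x _ => phi_psi hd x) (fun x _ => psi_phi hd x) (run_away hd)
  refine ⟨Om hd, fun _ => 1, psi hd, Om_open hd, ⟨pt hd 1 0, pt_mem hd (by norm_num)⟩,
    contDiffOn_const, psi_smooth hd, psi_maps hd, hyp, ?_, not_periodic_dense hd,
    fun h => not_periodic_dense hd h.2⟩
  obtain ⟨g, hg, h⟩ := hyp
  refine ⟨g, hg, fun f hf L hL hLO n ε hε => ?_⟩
  obtain ⟨m, hm⟩ := h f hf L hL hLO n ε hε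
  exact ⟨m, 1, by simpa using hm⟩

end Pool.Agent.Results.MP_fcbc3e_an.SaddleSkewMap
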